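import Pool.Agent.Helper1_NP9.Stmts

/-!
# Squad NP9, module DS: soundness of the DFI relation
-/

set_option autoImplicit false

namespace Pool.Agent.NP9.H27

/-! ### Congruences of the sequences -/

theorem Y_two (a : ℤ) (n : ℕ) : Y a (n + 2) = 2 * a * Y a (n + 1) - Y a n := rfl

theorem y_sub_dvd (a b : ℤ) (n : ℕ) : (a - b) ∣ Y a n - Y b n ∧
    (a - b) ∣ Y a (n + 1) - Y b (n + 1) := by
  induction n with
  | zero => exact ⟨by simp [Y], by simp [Y]⟩
  | succ n ih =>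
    refine ⟨ih.2, ?_⟩
    rw [Y_two, Y_two]
    have h : 2 * a * Y a (n + 1) - Y a n - (2 * b * Y b (n + 1) - Y b n) =
        2 * a * (Y a (n + 1) - Y b (n + 1)) + (a - b) * (2 * Y b (n + 1)) -
          (Y a n - Y b n) := by ring
    rw [h]
    exact dvd_sub (dvd_add (Dvd.dvd.mul_left ih.2 _) (Dvd.intro _ rfl)) ih.1

theorem y_mod (a : ℤ) (n : ℕ) : (a - 1) ∣ Y a n - n ∧ (a - 1) ∣ Y a (n + 1) - (n + 1 : ℕ) := by
  induction n with
  | zero => exact ⟨by simp [Y], by simp [Y]⟩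
  | succ n ih =>
    refine ⟨ih.2, ?_⟩
    rw [Y_two]
    have h : 2 * a * Y a (n + 1) - Y a n - ((n + 1 + 1 : ℕ) : ℤ) =
        2 * a * (Y a (n + 1) - (n + 1 : ℕ)) + (a - 1) * (2 * (n + 1)) - (Y a n - n) := by
      push_cast
      ring
    rw [h]
    exact dvd_sub (dvd_add (Dvd.dvd.mul_left ih.2 _) (Dvd.intro _ rfl)) ih.1

/-! ### The step down lemma -/

section step

variable {a : ℕ} (a1 : 1 < a)

theorem pell_z (n : ℕ) : (Pell.xn a1 n : ℤ) ^ 2 = ((a : ℤ) ^ 2 - 1) * (Pell.yn a1 n : ℤ) ^ 2 + 1 := by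
  have h : (Pell.xn a1 n : ℤ) * (Pell.xn a1 n : ℤ) -
    ((a * a - 1 : ℕ) : ℤ) * (Pell.yn a1 n : ℤ) * (Pell.yn a1 n : ℤ) = 1 := Pell.pell_eqz a1 n
  rw [Nat.cast_sub (by nlinarith)] at h
  push_cast at h
  linarith

theorem xn_addz (m n : ℕ) : (Pell.xn a1 (m + n) : ℤ) = Pell.xn a1 m * Pell.xn a1 n +
    ((a : ℤ) ^ 2 - 1) * Pell.yn a1 m * Pell.yn a1 n := by
  have h : Pell.xn a1 (m + n) = Pell.xn a1 m * Pell.xn a1 n +
    (a * a - 1 : ℕ) * Pell.yn a1 m * Pell.yn a1 n := Pell.xn_add a1 m n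
  have h2 := congrArg (fun t : ℕ => (t : ℤ)) h
  push_cast [Nat.cast_sub (show 1 ≤ a * a by nlinarith)] at h2
  linarith

theorem yn_addz (m n : ℕ) : (Pell.yn a1 (m + n) : ℤ) = Pell.xn a1 m * Pell.yn a1 n +
    Pell.yn a1 m * Pell.xn a1 n := by
  have h2 := congrArg (fun t : ℕ => (t : ℤ)) (Pell.yn_add a1 m n)
  push_cast at h2
  exact h2

theorem yn_subz {m n : ℕ} (h : n ≤ m) : (Pell.yn a1 (m - n) : ℤ) = Pell.xn a1 n * Pell.yn a1 m -
    Pell.xn a1 m * Pell.yn a1 n := Pell.yz_sub a1 h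

theorem y_double (m : ℕ) : (Pell.xn a1 m : ℤ) ∣ Pell.yn a1 (m + m) := by
  rw [yn_addz]
  exact dvd_add (Dvd.intro _ rfl) (Dvd.intro_left _ rfl)

theorem x_double (m : ℕ) : (Pell.xn a1 m : ℤ) ∣ (Pell.xn a1 (m + m) : ℤ) + 1 := by
  rw [xn_addz]
  have h := pell_z a1 m
  refine ⟨2 * Pell.xn a1 m, ?_⟩
  linear_combination -h

/-- `Y (2 m + i) = - Y i` modulo `X m` -/
theorem step_add (m i : ℕ) : (Pell.xn a1 m : ℤ) ∣ Pell.yn a1 (m + m + i) + Pell.yn a1 i := by
  rw [yn_addz]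
  have h : (Pell.xn a1 (m + m) : ℤ) * Pell.yn a1 i + Pell.yn a1 (m + m) * Pell.xn a1 i +
      Pell.yn a1 i = ((Pell.xn a1 (m + m) : ℤ) + 1) * Pell.yn a1 i +
        Pell.yn a1 (m + m) * Pell.xn a1 i := by ring
  rw [h]
  exact dvd_add (Dvd.dvd.mul_right (x_double a1 m) _) (Dvd.dvd.mul_right (y_double a1 m) _)

/-- `Y (2 m - i) = Y i` modulo `X m` -/
theorem step_sub (m i : ℕ) (hi : i ≤ m + m) :
    (Pell.xn a1 m : ℤ) ∣ Pell.yn a1 (m + m - i) - Pell.yn a1 i := by
  rw [yn_subz a1 hi]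
  have h : (Pell.xn a1 i : ℤ) * Pell.yn a1 (m + m) - Pell.xn a1 (m + m) * Pell.yn a1 i -
      Pell.yn a1 i = Pell.yn a1 (m + m) * Pell.xn a1 i -
        ((Pell.xn a1 (m + m) : ℤ) + 1) * Pell.yn a1 i := by ring
  rw [h]
  exact dvd_sub (Dvd.dvd.mul_right (y_double a1 m) _) (Dvd.dvd.mul_right (x_double a1 m) _)

theorem y_lt_x (ha : 3 ≤ a) (m : ℕ) : 2 * (Pell.yn a1 m : ℤ) < Pell.xn a1 m := by
  have h := pell_z a1 m
  have ha' : (3 : ℤ) ≤ a := by exact_mod_cast ha
  have h0 : (0 : ℤ) ≤ Pell.yn a1 m := Nat.cast_nonneg _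
  have h1 : (0 : ℤ) ≤ Pell.xn a1 m := Nat.cast_nonneg _
  refine lt_of_pow_lt_pow_left₀ 2 h1 ?_
  nlinarith [mul_nonneg (sq_nonneg (Pell.yn a1 m : ℤ)) (show (0 : ℤ) ≤ (a : ℤ) ^ 2 - 9 by nlinarith)]

/-- the step down lemma -/
theorem step_down (ha : 3 ≤ a) (m : ℕ) (hm : 1 ≤ m) (s : ℕ) (hs : s ≤ m) : ∀ r : ℕ,
    ((Pell.xn a1 m : ℤ) ∣ Pell.yn a1 r - Pell.yn a1 s ∨
      (Pell.xn a1 m : ℤ) ∣ Pell.yn a1 r + Pell.yn a1 s) →
    ((2 * m : ℤ) ∣ r - s ∨ (2 * m : ℤ) ∣ r + s) := by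
  intro r
  induction r using Nat.strong_induction_on with
  | _ r ih =>
    intro h
    have hys : (Pell.yn a1 s : ℤ) ≤ Pell.yn a1 m := by
      exact_mod_cast (Pell.strictMono_y a1).monotone hs
    have hy0 : (0 : ℤ) ≤ Pell.yn a1 s := Nat.cast_nonneg _
    have hr0 : (0 : ℤ) ≤ Pell.yn a1 r := Nat.cast_nonneg _
    have hlt := y_lt_x a1 ha m
    rcases Nat.lt_or_ge (m + m) r with h1 | h1
    · -- `r > 2 m`
      obtain ⟨i, rfl⟩ : ∃ i, r = m + m + i := ⟨r - (m + m), by omega⟩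
      have h2 := step_add a1 m i
      have h3 := ih i (by omega) (by
        rcases h with h | h
        · right
          have h4 := dvd_sub h2 h
          have h5 : (Pell.yn a1 (m + m + i) : ℤ) + Pell.yn a1 i -
              (Pell.yn a1 (m + m + i) - Pell.yn a1 s) = Pell.yn a1 i + Pell.yn a1 s := by ring
          rwa [h5] at h4
        · left
          have h4 := dvd_sub h2 h
          have h5 : (Pell.yn a1 (m + m + i) : ℤ) + Pell.yn a1 i -
              (Pell.yn a1 (m + m + i) + Pell.yn a1 s) = Pell.yn a1 i - Pell.yn a1 s := by ring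
          rwa [h5] at h4)
      rcases h3 with h3 | h3
      · left
        have h4 := dvd_add h3 (dvd_refl (2 * (m : ℤ)))
        have h5 : (i : ℤ) - s + 2 * m = ((m + m + i : ℕ) : ℤ) - s := by push_cast; ring
        rwa [h5] at h4
      · right
        have h4 := dvd_add h3 (dvd_refl (2 * (m : ℤ)))
        have h5 : (i : ℤ) + s + 2 * m = ((m + m + i : ℕ) : ℤ) + s := by push_cast; ring
        rwa [h5] at h4
    · rcases Nat.lt_or_ge m r with h6 | h6
      · -- `m < r ≤ 2 m`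
        have h2 := step_sub a1 m r h1
        have h3 := ih (m + m - r) (by omega) (by
          rcases h with h | h
          · left
            have h4 := dvd_add h2 h
            have h5 : (Pell.yn a1 (m + m - r) : ℤ) - Pell.yn a1 r +
                (Pell.yn a1 r - Pell.yn a1 s) = Pell.yn a1 (m + m - r) - Pell.yn a1 s := by ring
            rwa [h5] at h4
          · right
            have h4 := dvd_add h2 h
            have h5 : (Pell.yn a1 (m + m - r) : ℤ) - Pell.yn a1 r +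
                (Pell.yn a1 r + Pell.yn a1 s) = Pell.yn a1 (m + m - r) + Pell.yn a1 s := by ring
            rwa [h5] at h4)
        have h7 : ((m + m - r : ℕ) : ℤ) = 2 * m - r := by
          rw [Nat.cast_sub h1]
          push_cast
          ring
        rw [h7] at h3
        rcases h3 with h3 | h3
        · right
          have h4 := dvd_sub (dvd_refl (2 * (m : ℤ))) h3
          have h5 : (2 * (m : ℤ)) - (2 * m - r - s) = r + s := by ring
          rwa [h5] at h4
        · left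
          have h4 := dvd_sub (dvd_refl (2 * (m : ℤ))) h3
          have h5 : (2 * (m : ℤ)) - (2 * m - r + s) = r - s := by ring
          rwa [h5] at h4
      · -- `r ≤ m`
        have hyr : (Pell.yn a1 r : ℤ) ≤ Pell.yn a1 m := by
          exact_mod_cast (Pell.strictMono_y a1).monotone h6
        rcases h with h | h
        · have h8 : (Pell.yn a1 r : ℤ) - Pell.yn a1 s = 0 := by
            refine Int.eq_zero_of_abs_lt_dvd h ?_
            rw [abs_lt]
            constructor <;> linarith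
          have h9 : Pell.yn a1 r = Pell.yn a1 s := by
            have : (Pell.yn a1 r : ℤ) = Pell.yn a1 s := by linarith
            exact_mod_cast this
          have h10 := (Pell.strictMono_y a1).injective h9
          left
          rw [h10, sub_self]
          exact dvd_zero _
        · have h8 : (Pell.yn a1 r : ℤ) + Pell.yn a1 s = 0 := by
            refine Int.eq_zero_of_abs_lt_dvd h ?_
            rw [abs_lt]
            constructor <;> linarith
          have h9 : Pell.yn a1 r = Pell.yn a1 s := by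
            have : (Pell.yn a1 r : ℤ) = Pell.yn a1 s := by linarith
            exact_mod_cast this
          have h10 := (Pell.strictMono_y a1).injective h9
          left
          rw [h10, sub_self]
          exact dvd_zero _

end step

/-! ### Squares -/

theorem isSquare_of_coprime {a b : ℤ} (ha : 0 < a) (h : IsCoprime a b) (hs : IsSquare (a * b)) :
    IsSquare a := by
  obtain ⟨c, hc⟩ := hs
  obtain ⟨d, hd⟩ := Int.sq_of_isCoprime h (by rw [hc, pow_two])
  rcases hd with hd | hd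
  · exact ⟨d, by rw [hd, pow_two]⟩
  · exfalso
    nlinarith [sq_nonneg d]

/-- DS -/
theorem ds (ypell : YPellStmt) (ysq : YSqStmt) : DfiSoundStmt := by
  intro a B C x y ha hB hBC hsq
  obtain ⟨a', rfl⟩ : ∃ a' : ℕ, a = a' := ⟨a.toNat, by rw [Int.toNat_of_nonneg (by omega)]⟩
  have ha' : 3 ≤ a' := by exact_mod_cast ha
  have a1 : 1 < a' := by omega
  have hB' : (1 : ℤ) ≤ B := by exact_mod_cast hB
  have hC : 1 ≤ C := by omega
  have hx : (0 : ℤ) ≤ x := Nat.cast_nonneg x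
  have hy : (0 : ℤ) ≤ y := Nat.cast_nonneg y
  obtain ⟨a, haa⟩ : ∃ a : ℤ, a = a' := ⟨_, rfl⟩
  rw [← haa] at ha hsq ⊢
  obtain ⟨D, hD⟩ : ∃ D, D = dD a C := ⟨_, rfl⟩
  obtain ⟨E, hE⟩ : ∃ E, E = dE a C (x : ℤ) := ⟨_, rfl⟩
  obtain ⟨F, hF⟩ : ∃ F, F = dF a C (x : ℤ) := ⟨_, rfl⟩
  obtain ⟨G, hG⟩ : ∃ G, G = dG a C (x : ℤ) := ⟨_, rfl⟩
  obtain ⟨H, hH⟩ : ∃ H, H = dH a (B : ℤ) C (x : ℤ) (y : ℤ) := ⟨_, rfl⟩
  obtain ⟨I, hI⟩ : ∃ I, I = dI a (B : ℤ) C (x : ℤ) (y : ℤ) := ⟨_, rfl⟩
  unfold dfi at hsq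
  rw [← hD, ← hF, ← hI] at hsq
  unfold dI at hI
  rw [← hG, ← hH] at hI
  unfold dH at hH
  rw [← hF] at hH
  unfold dG at hG
  rw [← hF] at hG
  unfold dF at hF
  rw [← hE] at hF
  unfold dE at hE
  rw [← hD] at hE
  unfold dD at hD
  -- positivity
  have ha2 : 0 < a ^ 2 - 1 := by nlinarith
  have hC2 : 0 < C ^ 2 := by positivity
  have hD0 : 0 < D := by rw [hD]; positivity
  have hE0 : 0 < E := by rw [hE]; positivity
  have hF0 : 0 < F := by rw [hF]; positivity
  have hFa : a ≤ F := by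
    have h1 : 1 ≤ E ^ 2 := by nlinarith
    rw [hF]
    nlinarith [mul_le_mul_of_nonneg_left h1 ha2.le]
  have hGa : a ≤ G := by
    rw [hG]
    nlinarith [mul_nonneg hF0.le (sub_nonneg.mpr hFa)]
  have hG2 : 0 < G ^ 2 - 1 := by nlinarith
  have hH0 : 0 < H := by rw [hH]; positivity
  have hI0 : 0 < I := by rw [hI]; positivity
  -- congruences
  have hDF : D ∣ F - 1 := by
    refine ⟨(a ^ 2 - 1) * (2 * C ^ 2 * (x + 1)) * E, ?_⟩
    rw [hF, hE]
    ring
  have hDG : D ∣ G - 1 := by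
    obtain ⟨k, hk⟩ := hDF
    refine ⟨(F - a + 1) * k, ?_⟩
    rw [hG]
    linear_combination (F - a + 1) * hk
  have hDI : D ∣ I - 1 := by
    obtain ⟨k, hk⟩ := hDG
    refine ⟨k * (G + 1) * H ^ 2, ?_⟩
    rw [hI]
    linear_combination (G + 1) * H ^ 2 * hk
  have hFG : F ∣ G - a := ⟨F - a, by rw [hG]; ring⟩
  have hFH : F ∣ H - C := ⟨B + (2 * y + 1) * C, by rw [hH]; ring⟩
  have hFI : F ∣ I - D := by
    obtain ⟨k, hk⟩ := hFG
    obtain ⟨l, hl⟩ := hFH
    refine ⟨k * (G + a) * H ^ 2 + (a ^ 2 - 1) * l * (H + C), ?_⟩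
    rw [hI, hD]
    linear_combination (G + a) * H ^ 2 * hk + (a ^ 2 - 1) * (H + C) * hl
  have cDF : IsCoprime D F := by
    obtain ⟨k, hk⟩ := hDF
    exact ⟨-k, 1, by linear_combination hk⟩
  have cDI : IsCoprime D I := by
    obtain ⟨k, hk⟩ := hDI
    exact ⟨-k, 1, by linear_combination hk⟩
  have cFI : IsCoprime F I := by
    obtain ⟨k, hk⟩ := hFI
    have h1 : IsCoprime F (D + F * k) := by
      have h2 := cDF.symm.add_mul_left_right k
      exact h2
    have h3 : D + F * k = I := by linear_combination -hk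
    rwa [h3] at h1
  have sI : IsSquare I := isSquare_of_coprime hI0 (cDI.symm.mul_right cFI.symm)
    (by rwa [mul_comm])
  have sDF : IsSquare (D * F) := isSquare_of_coprime (mul_pos hD0 hF0)
    (cDI.mul_left cFI) hsq
  have sD : IsSquare D := isSquare_of_coprime hD0 cDF sDF
  have sF : IsSquare F := isSquare_of_coprime hF0 cDF.symm (by rwa [mul_comm])
  -- the indices
  obtain ⟨s, hs⟩ := (ysq a C (by omega) (by omega)).mp (by rw [← hD]; exact sD)
  obtain ⟨m, hm⟩ := (ysq a E (by omega) hE0.le).mp (by rw [← hF]; exact sF)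
  obtain ⟨r, hr⟩ := (ysq G H (by omega) hH0.le).mp (by rw [← hI]; exact sI)
  have ps : C = Pell.yn a1 s := by rw [hs, haa, ypell a' a1]
  have pm : E = Pell.yn a1 m := by rw [hm, haa, ypell a' a1]
  have hu : F = (Pell.xn a1 m : ℤ) ^ 2 := by
    rw [pell_z, ← pm, ← haa, hF]
  have hm1 : 1 ≤ m := by
    by_contra h
    have h0 : m = 0 := by omega
    rw [h0] at hm
    have : Y a 0 = 0 := rfl
    omega
  have hs1 : 1 ≤ s := by
    by_contra h
    have h0 : s = 0 := by omega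
    rw [h0] at hs
    have : Y a 0 = 0 := rfl
    omega
  have hCE : C ≤ E := by
    rw [hE]
    nlinarith [mul_nonneg (mul_nonneg hC2.le hD0.le) hx, mul_pos hC2 hD0, mul_le_mul hC2 hD0 (by norm_num) hC2.le]
  have hsm : s ≤ m := by
    rw [ps, pm] at hCE
    have h1 : Pell.yn a1 s ≤ Pell.yn a1 m := by exact_mod_cast hCE
    exact (Pell.strictMono_y a1).le_iff_le.mp h1
  -- (i)
  have h1 : (Pell.xn a1 m : ℤ) ∣ Pell.yn a1 r - Pell.yn a1 s := by
    have h2 : F ∣ Y G r - Y a r := dvd_trans hFG (y_sub_dvd G a r).1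
    have h3 : F ∣ Y a r - C := by
      have h4 := dvd_sub hFH h2
      have h5 : H - C - (Y G r - Y a r) = Y a r - C := by rw [hr]; ring
      rwa [h5] at h4
    have h6 : Y a r = Pell.yn a1 r := by rw [haa, ypell a' a1]
    rw [h6, ps] at h3
    refine dvd_trans ?_ h3
    rw [hu]
    exact dvd_pow_self _ (by norm_num)
  -- (ii)
  have hCF : 2 * C ∣ F - 1 := by
    refine ⟨(a ^ 2 - 1) * (C * D * (x + 1)) * E, ?_⟩
    rw [hF, hE]
    ring
  have hCG : 2 * C ∣ G - 1 := by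
    obtain ⟨k, hk⟩ := hCF
    refine ⟨(F - a + 1) * k, ?_⟩
    rw [hG]
    linear_combination (F - a + 1) * hk
  have hCH : 2 * C ∣ H - B := by
    obtain ⟨k, hk⟩ := hCF
    refine ⟨B * k + (2 * y + 1) * C * k + (y + 1), ?_⟩
    rw [hH]
    linear_combination (B + (2 * y + 1) * C) * hk
  have hrB : 2 * C ∣ r - B := by
    have h2 : 2 * C ∣ Y G r - r := dvd_trans hCG (y_mod G r).1
    rw [← hr] at h2
    have h3 := dvd_sub hCH h2
    have h4 : H - B - (H - r) = (r : ℤ) - B := by ring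
    rwa [h4] at h3
  -- (iii)
  have hCm : C ∣ m := by
    have h2 : Pell.yn a1 s * Pell.yn a1 s ∣ Pell.yn a1 m := by
      have h3 : C * C ∣ E := ⟨2 * D * (x + 1), by rw [hE]; ring⟩
      rw [ps, pm] at h3
      exact_mod_cast h3
    have h4 := Pell.dvd_of_ysq_dvd a1 h2
    rw [ps]
    exact_mod_cast h4
  -- (iv)
  have h7 := step_down a1 ha' m hm1 s hsm r (Or.inl h1)
  have h2C : 2 * C ∣ 2 * (m : ℤ) := mul_dvd_mul_left 2 hCm
  -- (v)
  have hsC : (s : ℤ) ≤ C := by
    have h8 : ∀ n : ℕ, n ≤ Pell.yn a1 n := by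
      intro n
      exact (Pell.strictMono_y a1).le_apply
    rw [ps]
    exact_mod_cast h8 s
  have hs1' : (1 : ℤ) ≤ s := by exact_mod_cast hs1
  have hfin : (B : ℤ) = s := by
    rcases h7 with h7 | h7
    · have h8 := dvd_sub (dvd_trans h2C h7) hrB
      have h9 : (r : ℤ) - s - (r - B) = B - s := by ring
      rw [h9] at h8
      have h10 : (B : ℤ) - s = 0 := by
        refine Int.eq_zero_of_abs_lt_dvd h8 ?_
        rw [abs_lt]
        constructor <;> linarith
      linarith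
    · have h8 := dvd_sub (dvd_trans h2C h7) hrB
      have h9 : (r : ℤ) + s - (r - B) = B + s := by ring
      rw [h9] at h8
      have h10 : 2 * C ≤ B + s := Int.le_of_dvd (by linarith) h8
      linarith
  have hfin' : B = s := by exact_mod_cast hfin
  rw [hfin', hs]

end Pool.Agent.NP9.H27
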